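import Pool.Agent.helper60.MW.SpecB

set_option autoImplicit false

namespace Pool.Agent.MW

open MeasureTheory Set Pool.Agent.helper17.Worm

theorem LTR (hLTD : LTD_stmt) (hDTR : DTR_stmt) : LTR_stmt := by
  intro X hX c
  have : (ul : Filter ℕ).NeBot := ul.neBot
  refine ⟨fun L x y => ?_, fun L x y => ?_, fun L x y => ?_⟩
  · exact ge_of_tendsto (hLTD X hX c L x y)
      (Filter.Eventually.of_forall fun n => (hDTR (X n) (hX n)).nonneg _ _ _)
  · exact le_of_tendsto (hLTD X hX c L x y)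
      (Filter.Eventually.of_forall fun n => (hDTR (X n) (hX n)).le_one _ _ _)
  · have h0 := (hLTD X hX c L x y).const_mul 4
    have h1 := (((hLTD X hX c (L + 1) (2 * x) (2 * y)).add
      (hLTD X hX c (L + 1) (2 * x + 1) (2 * y))).add
      (hLTD X hX c (L + 1) (2 * x) (2 * y + 1))).add
      (hLTD X hX c (L + 1) (2 * x + 1) (2 * y + 1))
    refine tendsto_nhds_unique h0 (h1.congr fun n => ?_)
    have h2 := (hDTR (X n) (hX n)).avg L (x + 2 ^ L * (c n).1) (y + 2 ^ L * (c n).2)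
    have e1 : (2 : ℤ) * (x + 2 ^ L * (c n).1) = 2 * x + 2 ^ (L + 1) * (c n).1 := by ring
    have e2 : (2 : ℤ) * (y + 2 ^ L * (c n).2) = 2 * y + 2 ^ (L + 1) * (c n).2 := by ring
    have e3 : (2 : ℤ) * x + 2 ^ (L + 1) * (c n).1 + 1 = 2 * x + 1 + 2 ^ (L + 1) * (c n).1 := by
      ring
    have e4 : (2 : ℤ) * y + 2 ^ (L + 1) * (c n).2 + 1 = 2 * y + 1 + 2 ^ (L + 1) * (c n).2 := by
      ring
    rw [e1, e2, e3, e4] at h2
    exact h2.symm

end Pool.Agent.MW
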